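import Mathlib

/-!
# Maximal open packings: the combinatorial reduction
-/

set_option autoImplicit false

namespace Pool.Agent.Q323.OpenPack

/-- A set `S` of vertices is an open packing if the open neighbourhoods of distinct elements of
`S` are disjoint. -/
def IsOpenPacking {V : Type} (G : SimpleGraph V) (S : Set V) : Prop :=
  ∀ u ∈ S, ∀ v ∈ S, u ≠ v → Disjoint (G.neighborSet u) (G.neighborSet v)

/-- All inclusion-maximal open packings have the same number of elements. -/
def EqualOpenPackings {V : Type} (G : SimpleGraph V) : Prop :=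
  ∀ S T : Set V, Maximal (IsOpenPacking G) S → Maximal (IsOpenPacking G) T → S.ncard = T.ncard

theorem isOpenPacking_iff {V : Type} (G : SimpleGraph V) (S : Set V) :
    IsOpenPacking G S ↔ ∀ u ∈ S, ∀ v ∈ S, u ≠ v → ∀ w, ¬ (G.Adj u w ∧ G.Adj v w) := by
  unfold IsOpenPacking
  simp only [Set.disjoint_left, SimpleGraph.mem_neighborSet, not_and]

theorem isOpenPacking_image {V W : Type} {G : SimpleGraph V} {H : SimpleGraph W} (e : G ≃g H)
    (S : Set V) : IsOpenPacking H (e '' S) ↔ IsOpenPacking G S := by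
  rw [isOpenPacking_iff, isOpenPacking_iff]
  constructor
  · intro h u hu v hv huv w ⟨h1, h2⟩
    exact h _ ⟨u, hu, rfl⟩ _ ⟨v, hv, rfl⟩ (fun h' => huv (e.injective h')) (e w)
      ⟨e.map_adj_iff.2 h1, e.map_adj_iff.2 h2⟩
  · rintro h _ ⟨u, hu, rfl⟩ _ ⟨v, hv, rfl⟩ huv w ⟨h1, h2⟩
    obtain ⟨w, rfl⟩ := e.surjective w
    exact h u hu v hv (fun h' => huv (by rw [h'])) w ⟨e.map_adj_iff.1 h1, e.map_adj_iff.1 h2⟩

theorem maximal_image {V W : Type} {G : SimpleGraph V} {H : SimpleGraph W} (e : G ≃g H)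
    {S : Set V} (hS : Maximal (IsOpenPacking G) S) : Maximal (IsOpenPacking H) (e '' S) := by
  refine ⟨(isOpenPacking_image e S).2 hS.1, fun T hT hST => ?_⟩
  have h3 : e '' (e ⁻¹' T) = T := Set.image_preimage_eq T e.surjective
  have h4 : IsOpenPacking G (e ⁻¹' T) := by
    rw [← isOpenPacking_image e, h3]
    exact hT
  have h5 : S ⊆ e ⁻¹' T := fun x hx => hST ⟨x, hx, rfl⟩
  rw [← h3]
  exact Set.image_mono (hS.2 h4 h5)

theorem EqualOpenPackings.of_iso {V W : Type} {G : SimpleGraph V} {H : SimpleGraph W}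
    (e : G ≃g H) (h : EqualOpenPackings H) : EqualOpenPackings G := by
  intro S T hS hT
  have := h _ _ (maximal_image e hS) (maximal_image e hT)
  rwa [Set.ncard_image_of_injective _ e.injective, Set.ncard_image_of_injective _ e.injective]
    at this

/-- The vertices of the graph of a formula with `n` variables and `m` clauses. -/
inductive PV (n m : ℕ) : Type
  | lit (i : Fin n) (b : Bool)
  | z (i : Fin n)
  | c (j : Fin (m + 1))
  | QC
  | Q (i : Fin n)
  | QL (i : Fin n) (b : Bool)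
  | R0
  | RZ (i : Fin n)

variable {n m : ℕ}

/-- The incidences. -/
def inc (L : ℕ → ℕ → Bool → Bool) : PV n m → PV n m → Prop
  | .lit i _, .Q i' => i = i'
  | .lit i b, .QL i' b' => i = i' ∧ b = b'
  | .z i, .Q i' => i = i'
  | .z i, .RZ i' => i = i'
  | .c _, .QC => True
  | .c j, .QL i b => j.1 = 0 ∨ (j.1 ≠ 0 ∧ L (j.1 - 1) i b = true)
  | .c j, .R0 => j.1 = 0
  | _, _ => False

/-- The graph of a formula. -/
def graph (L : ℕ → ℕ → Bool → Bool) : SimpleGraph (PV n m) where
  Adj u v := inc L u v ∨ inc L v u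
  symm := ⟨fun _ _ h => h.symm⟩
  loopless := ⟨fun u h => by cases u <;> simp [inc] at h⟩

/-- The cells: each cell has pairwise common neighbours. -/
def cell : PV n m → ℕ × ℕ
  | .lit i _ => (0, i.1)
  | .z i => (0, i.1)
  | .c _ => (1, 0)
  | .Q i => (2, i.1)
  | .RZ i => (2, i.1)
  | .QC => (3, 0)
  | .QL _ _ => (3, 0)
  | .R0 => (3, 0)

variable {L : ℕ → ℕ → Bool → Bool}

theorem adj_iff (u v : PV n m) : (graph L).Adj u v ↔ inc L u v ∨ inc L v u := Iff.rfl

theorem common {u v : PV n m} (h : cell u = cell v) :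
    ∃ w, (graph L).Adj u w ∧ (graph L).Adj v w := by
  have hc : ∀ b : Bool, ∀ i : Fin n, inc L (PV.c 0 : PV n m) (PV.QL i b) := fun b i => Or.inl rfl
  have hq : inc L (PV.c 0 : PV n m) PV.QC := trivial
  have hr : inc L (PV.c 0 : PV n m) PV.R0 := rfl
  cases u with
  | lit i b =>
    cases v with
    | lit i' b' =>
      simp only [cell, Prod.mk.injEq, true_and, Fin.val_inj] at h
      subst h
      exact ⟨PV.Q i, Or.inl rfl, Or.inl rfl⟩
    | z i' =>
      simp only [cell, Prod.mk.injEq, true_and, Fin.val_inj] at h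
      subst h
      exact ⟨PV.Q i, Or.inl rfl, Or.inl rfl⟩
    | _ => simp [cell] at h
  | z i =>
    cases v with
    | lit i' b' =>
      simp only [cell, Prod.mk.injEq, true_and, Fin.val_inj] at h
      subst h
      exact ⟨PV.Q i, Or.inl rfl, Or.inl rfl⟩
    | z i' =>
      simp only [cell, Prod.mk.injEq, true_and, Fin.val_inj] at h
      subst h
      exact ⟨PV.Q i, Or.inl rfl, Or.inl rfl⟩
    | _ => simp [cell] at h
  | c j =>
    cases v with
    | c j' => exact ⟨PV.QC, Or.inl trivial, Or.inl trivial⟩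
    | _ => simp [cell] at h
  | QC =>
    cases v with
    | QC => exact ⟨PV.c 0, Or.inr hq, Or.inr hq⟩
    | QL i b => exact ⟨PV.c 0, Or.inr hq, Or.inr (hc _ _)⟩
    | R0 => exact ⟨PV.c 0, Or.inr hq, Or.inr hr⟩
    | _ => simp [cell] at h
  | R0 =>
    cases v with
    | QC => exact ⟨PV.c 0, Or.inr hr, Or.inr hq⟩
    | QL i b => exact ⟨PV.c 0, Or.inr hr, Or.inr (hc _ _)⟩
    | R0 => exact ⟨PV.c 0, Or.inr hr, Or.inr hr⟩
    | _ => simp [cell] at h
  | QL i' b' =>
    cases v with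
    | QC => exact ⟨PV.c 0, Or.inr (hc _ _), Or.inr hq⟩
    | QL i b => exact ⟨PV.c 0, Or.inr (hc _ _), Or.inr (hc _ _)⟩
    | R0 => exact ⟨PV.c 0, Or.inr (hc _ _), Or.inr hr⟩
    | _ => simp [cell] at h
  | Q i =>
    cases v with
    | Q i' =>
      simp only [cell, Prod.mk.injEq, true_and, Fin.val_inj] at h
      subst h
      exact ⟨PV.z i, Or.inr rfl, Or.inr rfl⟩
    | RZ i' =>
      simp only [cell, Prod.mk.injEq, true_and, Fin.val_inj] at h
      subst h
      exact ⟨PV.z i, Or.inr rfl, Or.inr rfl⟩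
    | _ => simp [cell] at h
  | RZ i =>
    cases v with
    | Q i' =>
      simp only [cell, Prod.mk.injEq, true_and, Fin.val_inj] at h
      subst h
      exact ⟨PV.z i, Or.inr rfl, Or.inr rfl⟩
    | RZ i' =>
      simp only [cell, Prod.mk.injEq, true_and, Fin.val_inj] at h
      subst h
      exact ⟨PV.z i, Or.inr rfl, Or.inr rfl⟩
    | _ => simp [cell] at h

theorem adj_z {i : Fin n} {w : PV n m} (h : (graph L).Adj (PV.z i) w) :
    w = PV.Q i ∨ w = PV.RZ i := by
  rcases h with h | h <;> cases w <;> simp_all [inc]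

theorem adj_RZ {i : Fin n} {w : PV n m} (h : (graph L).Adj (PV.RZ i) w) : w = PV.z i := by
  rcases h with h | h <;> cases w <;> simp_all [inc]

theorem adj_R0 {w : PV n m} (h : (graph L).Adj PV.R0 w) : w = PV.c 0 := by
  rcases h with h | h <;> cases w <;> simp_all [inc]

theorem adj_lit {i : Fin n} {b : Bool} {w : PV n m} (h : (graph L).Adj (PV.lit i b) w) :
    w = PV.Q i ∨ w = PV.QL i b := by
  rcases h with h | h <;> cases w <;> simp_all [inc]

theorem adj_c {j : Fin (m + 1)} {w : PV n m} (h : (graph L).Adj (PV.c j) w) :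
    w = PV.QC ∨ (w = PV.R0 ∧ j.1 = 0) ∨
      ∃ i b, w = PV.QL i b ∧ (j.1 = 0 ∨ (j.1 ≠ 0 ∧ L (j.1 - 1) i b = true)) := by
  rcases h with h | h
  · cases w with
    | QC => exact Or.inl rfl
    | R0 => exact Or.inr (Or.inl ⟨rfl, h⟩)
    | QL i b => exact Or.inr (Or.inr ⟨i, b, rfl, h⟩)
    | _ => exact absurd h (by simp [inc])
  · cases w <;> exact absurd h (by simp [inc])

theorem adj_QC {w : PV n m} (h : (graph L).Adj PV.QC w) : ∃ j, w = PV.c j := by
  rcases h with h | h <;> cases w <;> simp_all [inc]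

theorem adj_Q {i : Fin n} {w : PV n m} (h : (graph L).Adj (PV.Q i) w) :
    w = PV.z i ∨ ∃ b, w = PV.lit i b := by
  rcases h with h | h <;> cases w <;> simp_all [inc]

theorem adj_QL {i : Fin n} {b : Bool} {w : PV n m} (h : (graph L).Adj (PV.QL i b) w) :
    w = PV.lit i b ∨ ∃ j, w = PV.c j := by
  rcases h with h | h <;> cases w <;> simp_all [inc]

theorem cell_inj {S : Set (PV n m)} (hS : IsOpenPacking (graph L) S) :
    Set.InjOn cell S := by
  intro u hu v hv huv
  by_contra hne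
  obtain ⟨w, hw⟩ := common (L := L) huv
  exact (isOpenPacking_iff _ _).1 hS u hu v hv hne w hw

theorem maximal_cells {S : Set (PV n m)} (hS : Maximal (IsOpenPacking (graph L)) S)
    (x : PV n m) : x ∈ S ∨ ∃ u ∈ S, ∃ w, (graph L).Adj u w ∧ (graph L).Adj x w := by
  by_contra hcon
  push Not at hcon
  refine hcon.1 (hS.2 (y := insert x S) ?_ (Set.subset_insert _ _) (Set.mem_insert _ _))
  rw [isOpenPacking_iff]
  intro u hu v hv huv w hw
  rcases hu with rfl | hu <;> rcases hv with rfl | hv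
  · exact huv rfl
  · exact hcon.2 v hv w hw.2 hw.1
  · exact hcon.2 u hu w hw.1 hw.2
  · exact (isOpenPacking_iff _ _).1 hS.1 u hu v hv huv w hw

theorem meets {S : Set (PV n m)} (hS : Maximal (IsOpenPacking (graph L)) S)
    (hun : ∀ τ : ℕ → Bool, ∃ k < m, ∀ i < n, L k i (τ i) = false) (x : PV n m) :
    ∃ u ∈ S, cell u = cell x := by
  classical
  have key : ∀ x : PV n m, (∀ u w : PV n m, (graph L).Adj u w → (graph L).Adj x w →
      cell u = cell x) → ∃ u ∈ S, cell u = cell x := by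
    intro x hx
    rcases maximal_cells hS x with h | ⟨u, hu, w, h1, h2⟩
    · exact ⟨x, h, rfl⟩
    · exact ⟨u, hu, hx u w h1 h2⟩
  have kz : ∀ i : Fin n, ∃ u ∈ S, cell u = cell (PV.z i : PV n m) := fun i => key _ (by
    intro u w h1 h2
    rcases adj_z h2 with rfl | rfl
    · rcases adj_Q h1.symm with rfl | ⟨b, rfl⟩ <;> rfl
    · rw [adj_RZ h1.symm])
  have kr : ∀ i : Fin n, ∃ u ∈ S, cell u = cell (PV.RZ i : PV n m) := fun i => key _ (by
    intro u w h1 h2
    rw [adj_RZ h2] at h1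
    rcases adj_z h1.symm with rfl | rfl <;> rfl)
  have k0 : ∃ u ∈ S, cell u = cell (PV.R0 : PV n m) := key _ (by
    intro u w h1 h2
    rw [adj_R0 h2] at h1
    rcases adj_c h1.symm with rfl | ⟨rfl, _⟩ | ⟨i, b, rfl, _⟩ <;> rfl)
  have kc : ∃ u ∈ S, cell u = (1, 0) := by
    by_contra hcon
    push Not at hcon
    have hnc : ∀ j, PV.c j ∉ S := fun j hj => hcon _ hj rfl
    obtain ⟨k, hk, hkf⟩ := hun (fun i => decide (∃ h : i < n, (PV.lit ⟨i, h⟩ true : PV n m) ∈ S))
    rcases maximal_cells hS (PV.c ⟨k + 1, by omega⟩) with h | ⟨u, hu, w, h1, h2⟩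
    · exact hnc _ h
    · rcases adj_c h2 with rfl | ⟨rfl, hj⟩ | ⟨i, b, rfl, hj⟩
      · obtain ⟨j, rfl⟩ := adj_QC h1.symm
        exact hnc _ hu
      · simp at hj
      · rcases adj_QL h1.symm with rfl | ⟨j, rfl⟩
        · have hL : L k i b = true := by
            rcases hj with hj | hj
            · simp at hj
            · exact hj.2
          have h3 := hkf i.1 i.2
          have h4 : (decide (∃ h : i.1 < n, (PV.lit ⟨i.1, h⟩ true : PV n m) ∈ S)) = b := by
            cases b with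
            | true => exact decide_eq_true ⟨i.2, hu⟩
            | false =>
              refine decide_eq_false ?_
              rintro ⟨h5, h6⟩
              have := cell_inj hS.1 hu h6 rfl
              simp at this
          rw [h4, hL] at h3
          exact absurd h3 (by simp)
        · exact hnc _ hu
  cases x with
  | lit i b => exact kz i
  | z i => exact kz i
  | c j => exact kc
  | QC => exact k0
  | Q i => exact kr i
  | QL i b => exact k0
  | R0 => exact k0
  | RZ i => exact kr i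

theorem equal_of_unsat (hun : ∀ τ : ℕ → Bool, ∃ k < m, ∀ i < n, L k i (τ i) = false) :
    EqualOpenPackings (graph L : SimpleGraph (PV n m)) := by
  have key : ∀ S : Set (PV n m), Maximal (IsOpenPacking (graph L)) S →
      S.ncard = (Set.range (cell : PV n m → ℕ × ℕ)).ncard := by
    intro S hS
    rw [← (cell_inj hS.1).ncard_image]
    congr 1
    ext y
    constructor
    · rintro ⟨u, _, rfl⟩
      exact ⟨u, rfl⟩
    · rintro ⟨x, rfl⟩
      exact meets hS hun x
  intro S T hS hT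
  rw [key S hS, key T hT]

theorem not_equal_of_sat (hn : 0 < n) (τ : ℕ → Bool)
    (hτ : ∀ k < m, ∃ i < n, L k i (τ i) = true) :
    ¬ EqualOpenPackings (graph L : SimpleGraph (PV n m)) := by
  classical
  intro h
  let S0 : Set (PV n m) := {x | (∃ i : Fin n, x = PV.lit i (τ i)) ∨ (∃ i, x = PV.RZ i) ∨
    x = PV.R0}
  let S1 : Set (PV n m) := {x | (∃ i, x = PV.z i) ∨ (∃ i, x = PV.RZ i) ∨ x = PV.R0 ∨
    x = PV.c 0}
  have hp0 : IsOpenPacking (graph L) S0 := by
    rw [isOpenPacking_iff]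
    rintro u hu v hv huv w ⟨h1, h2⟩
    rcases hu with ⟨i, rfl⟩ | ⟨i, rfl⟩ | rfl
    · rcases hv with ⟨i', rfl⟩ | ⟨i', rfl⟩ | rfl
      · have hii : i ≠ i' := fun h => huv (by rw [h])
        rcases adj_lit h1 with rfl | rfl <;> rcases adj_lit h2 with h | h <;>
          simp [hii] at h
      · rw [adj_RZ h2] at h1
        rcases adj_lit h1 with h | h <;> simp at h
      · rw [adj_R0 h2] at h1
        rcases adj_lit h1 with h | h <;> simp at h
    · rw [adj_RZ h1] at h2
      rcases hv with ⟨i', rfl⟩ | ⟨i', rfl⟩ | rfl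
      · rcases adj_lit h2 with h | h <;> simp at h
      · have := adj_RZ h2
        simp only [PV.z.injEq] at this
        exact huv (by rw [this])
      · have := adj_R0 h2
        simp at this
    · rw [adj_R0 h1] at h2
      rcases hv with ⟨i', rfl⟩ | ⟨i', rfl⟩ | rfl
      · rcases adj_lit h2 with h | h <;> simp at h
      · have := adj_RZ h2
        simp at this
      · exact huv rfl
  have hp1 : IsOpenPacking (graph L) S1 := by
    rw [isOpenPacking_iff]
    rintro u hu v hv huv w ⟨h1, h2⟩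
    rcases hu with ⟨i, rfl⟩ | ⟨i, rfl⟩ | rfl | rfl
    · rcases hv with ⟨i', rfl⟩ | ⟨i', rfl⟩ | rfl | rfl
      · have hii : i ≠ i' := fun h => huv (by rw [h])
        rcases adj_z h1 with rfl | rfl <;> rcases adj_z h2 with h | h <;>
          simp [hii] at h
      · rw [adj_RZ h2] at h1
        rcases adj_z h1 with h | h <;> simp at h
      · rw [adj_R0 h2] at h1
        rcases adj_z h1 with h | h <;> simp at h
      · rcases adj_z h1 with rfl | rfl <;>
          rcases adj_c h2 with h | ⟨h, _⟩ | ⟨_, _, h, _⟩ <;> simp at h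
    · rw [adj_RZ h1] at h2
      rcases hv with ⟨i', rfl⟩ | ⟨i', rfl⟩ | rfl | rfl
      · rcases adj_z h2 with h | h <;> simp at h
      · have := adj_RZ h2
        simp only [PV.z.injEq] at this
        exact huv (by rw [this])
      · have := adj_R0 h2
        simp at this
      · rcases adj_c h2 with h | ⟨h, _⟩ | ⟨_, _, h, _⟩ <;> simp at h
    · rw [adj_R0 h1] at h2
      rcases hv with ⟨i', rfl⟩ | ⟨i', rfl⟩ | rfl | rfl
      · rcases adj_z h2 with h | h <;> simp at h
      · have := adj_RZ h2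
        simp at this
      · exact huv rfl
      · exact h2.ne rfl
    · rcases hv with ⟨i', rfl⟩ | ⟨i', rfl⟩ | rfl | rfl
      · rcases adj_z h2 with rfl | rfl <;>
          rcases adj_c h1 with h | ⟨h, _⟩ | ⟨_, _, h, _⟩ <;> simp at h
      · rw [adj_RZ h2] at h1
        rcases adj_c h1 with h | ⟨h, _⟩ | ⟨_, _, h, _⟩ <;> simp at h
      · rw [adj_R0 h2] at h1
        exact h1.ne rfl
      · exact huv rfl
  have hm1 : Maximal (IsOpenPacking (graph L)) S1 := by
    refine ⟨hp1, fun T hT hST x hx => ?_⟩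
    have : ∃ y ∈ S1, cell y = cell x := by
      cases x with
      | lit i b => exact ⟨PV.z i, Or.inl ⟨i, rfl⟩, rfl⟩
      | z i => exact ⟨PV.z i, Or.inl ⟨i, rfl⟩, rfl⟩
      | c j => exact ⟨PV.c 0, Or.inr (Or.inr (Or.inr rfl)), rfl⟩
      | QC => exact ⟨PV.R0, Or.inr (Or.inr (Or.inl rfl)), rfl⟩
      | Q i => exact ⟨PV.RZ i, Or.inr (Or.inl ⟨i, rfl⟩), rfl⟩
      | QL i b => exact ⟨PV.R0, Or.inr (Or.inr (Or.inl rfl)), rfl⟩
      | R0 => exact ⟨PV.R0, Or.inr (Or.inr (Or.inl rfl)), rfl⟩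
      | RZ i => exact ⟨PV.RZ i, Or.inr (Or.inl ⟨i, rfl⟩), rfl⟩
    obtain ⟨y, hy, hyx⟩ := this
    rw [← cell_inj hT (hST hy) hx hyx]
    exact hy
  have hm0 : Maximal (IsOpenPacking (graph L)) S0 := by
    refine ⟨hp0, fun T hT hST x hx => ?_⟩
    have hT' := (isOpenPacking_iff _ _).1 hT
    have hcl : ∀ y ∈ S0, cell y = cell x → x ∈ S0 := by
      intro y hy hyx
      rw [← cell_inj hT (hST hy) hx hyx]
      exact hy
    have hlit : ∀ i : Fin n, (PV.lit i (τ i) : PV n m) ∈ S0 := fun i => Or.inl ⟨i, rfl⟩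
    cases x with
    | lit i b => exact hcl _ (hlit i) rfl
    | z i => exact hcl _ (hlit i) rfl
    | c j =>
      exfalso
      by_cases hj : j.1 = 0
      · refine hT' _ (hST (hlit ⟨0, hn⟩)) _ hx (by simp) (PV.QL ⟨0, hn⟩ (τ 0)) ⟨?_, ?_⟩
        · exact Or.inl ⟨rfl, rfl⟩
        · exact Or.inl (Or.inl hj)
      · obtain ⟨i, hi, hL⟩ := hτ (j.1 - 1) (by have := j.2; omega)
        refine hT' _ (hST (hlit ⟨i, hi⟩)) _ hx (by simp) (PV.QL ⟨i, hi⟩ (τ i)) ⟨?_, ?_⟩
        · exact Or.inl ⟨rfl, rfl⟩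
        · exact Or.inl (Or.inr ⟨hj, hL⟩)
    | QC => exact hcl PV.R0 (Or.inr (Or.inr rfl)) rfl
    | Q i => exact hcl (PV.RZ i) (Or.inr (Or.inl ⟨i, rfl⟩)) rfl
    | QL i b => exact hcl PV.R0 (Or.inr (Or.inr rfl)) rfl
    | R0 => exact Or.inr (Or.inr rfl)
    | RZ i => exact Or.inr (Or.inl ⟨i, rfl⟩)
  have heq := h S0 S1 hm0 hm1
  rw [← (cell_inj hp0).ncard_image, ← (cell_inj hp1).ncard_image] at heq
  have hsub : cell '' S0 ⊆ cell '' S1 := by
    rintro _ ⟨x, hx, rfl⟩
    rcases hx with ⟨i, rfl⟩ | ⟨i, rfl⟩ | rfl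
    · exact ⟨PV.z i, Or.inl ⟨i, rfl⟩, rfl⟩
    · exact ⟨PV.RZ i, Or.inr (Or.inl ⟨i, rfl⟩), rfl⟩
    · exact ⟨PV.R0, Or.inr (Or.inr (Or.inl rfl)), rfl⟩
  have hfin : (cell '' S1).Finite := by
    have : (cell '' S1) ⊆ ((Finset.range 4 ×ˢ Finset.range (n + 1) : Finset (ℕ × ℕ)) : Set _) := by
      rintro _ ⟨x, _, rfl⟩
      cases x <;> simp [cell]
    exact (Finset.finite_toSet _).subset this
  have := Set.eq_of_subset_of_ncard_le hsub heq.ge hfin
  have h1 : ((1, 0) : ℕ × ℕ) ∈ cell '' S1 := ⟨PV.c 0, Or.inr (Or.inr (Or.inr rfl)), rfl⟩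
  rw [← this] at h1
  obtain ⟨x, hx, hx1⟩ := h1
  rcases hx with ⟨i, rfl⟩ | ⟨i, rfl⟩ | rfl <;> simp [cell] at hx1

end Pool.Agent.Q323.OpenPack
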