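import Pool.Agent.Q323.OpenPack.Comb
import Pool.Agent.H495R3.Tri

/-!
# Maximal open packings: membership in coNP
-/

set_option autoImplicit false

namespace Pool.Agent.Q323.OpenPack

open Pool.Agent.NPC Pool.Agent.H622R2 Pool.Agent.H495R3

/-- The list is a maximal open packing. -/
def isMaxOP (M : List (List Bool)) (S : List ℕ) : Bool :=
  (S.all fun i => decide (i < M.length)) &&
  (S.all fun i => S.all fun j => decide (i = j) ||
    (List.range M.length).all fun w => !(adjB M i w && adjB M j w)) &&
  ((List.range M.length).all fun x => decide (x ∈ S) ||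
    S.any fun i => (List.range M.length).any fun w => adjB M i w && adjB M x w)

/-- The number of vertices in the list. -/
def cnt (M : List (List Bool)) (S : List ℕ) : ℕ :=
  ((List.range M.length).filter fun i => decide (i ∈ S)).length

/-- The verifier. -/
def chk (p : List (List Bool) × List ℕ × List ℕ) : Bool :=
  isMaxOP p.1 p.2.1 && isMaxOP p.1 p.2.2 && !(decide (cnt p.1 p.2.1 = cnt p.1 p.2.2))

theorem isMaxOP_poly : Poly (fun p : List (List Bool) × List ℕ => isMaxOP p.1 p.2) := by
  unfold isMaxOP
  have hr1 : Poly (fun p : (List (List Bool) × List ℕ) => List.range p.1.length) :=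
    Poly.range_length (Poly.fst Poly.id)
  have hr2 : Poly (fun p : ((List (List Bool) × List ℕ) × ℕ) => List.range p.1.1.length) :=
    Poly.range_length (Poly.fst (Poly.fst Poly.id))
  have hr3 : Poly (fun p : (((List (List Bool) × List ℕ) × ℕ) × ℕ) =>
      List.range p.1.1.1.length) :=
    Poly.range_length (Poly.fst (Poly.fst (Poly.fst Poly.id)))
  have h1 : Poly (fun p : List (List Bool) × List ℕ => p.2.all fun i => p.2.all fun j =>
      decide (i = j) || (List.range p.1.length).all fun w => !(adjB p.1 i w && adjB p.1 j w)) := by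
    refine Poly.all (p := fun (p : List (List Bool) × List ℕ) i => p.2.all fun j =>
      decide (i = j) || (List.range p.1.length).all fun w => !(adjB p.1 i w && adjB p.1 j w))
      (Poly.snd Poly.id) ?_
    refine Poly.all (p := fun (p : (List (List Bool) × List ℕ) × ℕ) j =>
      decide (p.2 = j) || (List.range p.1.1.length).all fun w =>
        !(adjB p.1.1 p.2 w && adjB p.1.1 j w)) (Poly.snd (Poly.fst Poly.id)) ?_
    refine Poly.or (by fun_prop) ?_
    refine Poly.all (p := fun (p : ((List (List Bool) × List ℕ) × ℕ) × ℕ) w =>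
      !(adjB p.1.1.1 p.1.2 w && adjB p.1.1.1 p.2 w)) hr3 ?_
    fun_prop
  have h2 : Poly (fun p : List (List Bool) × List ℕ => (List.range p.1.length).all fun x =>
      decide (x ∈ p.2) || p.2.any fun i => (List.range p.1.length).any fun w =>
        adjB p.1 i w && adjB p.1 x w) := by
    refine Poly.all (p := fun (p : List (List Bool) × List ℕ) x =>
      decide (x ∈ p.2) || p.2.any fun i => (List.range p.1.length).any fun w =>
        adjB p.1 i w && adjB p.1 x w) hr1 ?_
    refine Poly.or (by fun_prop) ?_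
    refine Poly.any (p := fun (p : (List (List Bool) × List ℕ) × ℕ) i =>
      (List.range p.1.1.length).any fun w => adjB p.1.1 i w && adjB p.1.1 p.2 w)
      (Poly.snd (Poly.fst Poly.id)) ?_
    refine Poly.any (p := fun (p : ((List (List Bool) × List ℕ) × ℕ) × ℕ) w =>
      adjB p.1.1.1 p.2 w && adjB p.1.1.1 p.1.2 w) hr3 ?_
    fun_prop
  refine Poly.and (Poly.and ?_ h1) h2
  fun_prop

theorem cnt_poly : Poly (fun p : List (List Bool) × List ℕ => cnt p.1 p.2) := by
  unfold cnt
  have hr1 : Poly (fun p : (List (List Bool) × List ℕ) => List.range p.1.length) :=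
    Poly.range_length (Poly.fst Poly.id)
  refine Poly.length (Poly.filter (p := fun (p : (List (List Bool) × List ℕ)) i =>
    decide (i ∈ p.2)) hr1 ?_)
  fun_prop

theorem chk_poly : Poly chk := by
  unfold chk
  refine Poly.and (Poly.and (isMaxOP_poly.comp (by fun_prop : Poly (fun p :
    List (List Bool) × List ℕ × List ℕ => (p.1, p.2.1)))) (isMaxOP_poly.comp (by fun_prop :
      Poly (fun p : List (List Bool) × List ℕ × List ℕ => (p.1, p.2.2))))) (Poly.not ?_)
  exact Poly.decide_eq (cnt_poly.comp (by fun_prop : Poly (fun p :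
    List (List Bool) × List ℕ × List ℕ => (p.1, p.2.1)))) (cnt_poly.comp (by fun_prop :
      Poly (fun p : List (List Bool) × List ℕ × List ℕ => (p.1, p.2.2))))

/-- The set of vertices in a list. -/
def setOf (M : List (List Bool)) (T : List ℕ) : Set (Fin M.length) := {x | (x : ℕ) ∈ T}

theorem isMaxOP_iff (M : List (List Bool)) (T : List ℕ) (hT : ∀ i ∈ T, i < M.length) :
    isMaxOP M T = true ↔ Maximal (IsOpenPacking (matGraph M)) (setOf M T) := by
  simp only [isMaxOP, Bool.and_eq_true, List.all_eq_true, decide_eq_true_eq, Bool.not_eq_true',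
    Bool.or_eq_true, List.any_eq_true, List.mem_range, Bool.and_eq_false_iff]
  constructor
  · rintro ⟨⟨_, h2⟩, h3⟩
    refine ⟨?_, ?_⟩
    · rw [isOpenPacking_iff]
      intro u hu v hv huv w ⟨a1, a2⟩
      rcases h2 _ hu _ hv with h | h
      · exact huv (Fin.ext h)
      · rcases h w.1 w.2 with h' | h'
        · rw [(adjB_iff M u w).2 a1] at h'
          exact absurd h' (by simp)
        · rw [(adjB_iff M v w).2 a2] at h'
          exact absurd h' (by simp)
    · intro T' hT' hTT' x hx
      rcases h3 x.1 x.2 with h | ⟨i, hi, w, hw, a1, a2⟩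
      · exact h
      · by_contra hxT
        have hiT : (⟨i, hT i hi⟩ : Fin M.length) ∈ T' := hTT' hi
        refine (isOpenPacking_iff _ _).1 hT' _ hiT _ hx ?_ ⟨w, hw⟩
          ⟨(adjB_iff M ⟨i, hT i hi⟩ ⟨w, hw⟩).1 a1, (adjB_iff M x ⟨w, hw⟩).1 a2⟩
        rintro rfl
        exact hxT hi
  · rintro ⟨h1, h2⟩
    rw [isOpenPacking_iff] at h1
    refine ⟨⟨hT, ?_⟩, ?_⟩
    · intro i hi j hj
      by_cases hij : i = j
      · exact Or.inl hij
      · right
        intro w hw
        by_contra hcon
        push Not at hcon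
        simp only [ne_eq, Bool.not_eq_false] at hcon
        exact h1 ⟨i, hT i hi⟩ hi ⟨j, hT j hj⟩ hj (fun h => hij (congrArg Fin.val h)) ⟨w, hw⟩
          ⟨(adjB_iff M ⟨i, hT i hi⟩ ⟨w, hw⟩).1 hcon.1, (adjB_iff M ⟨j, hT j hj⟩ ⟨w, hw⟩).1 hcon.2⟩
    · intro x hx
      by_cases hxT : x ∈ T
      · exact Or.inl hxT
      · right
        by_contra hcon
        push Not at hcon
        apply hxT
        refine h2 (y := insert ⟨x, hx⟩ (setOf M T)) ?_ (Set.subset_insert _ _)
          (Set.mem_insert _ _)
        change IsOpenPacking _ _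
        rw [isOpenPacking_iff]
        intro u hu v hv huv w ⟨a1, a2⟩
        rcases hu with rfl | hu <;> rcases hv with rfl | hv
        · exact huv rfl
        · exact hcon v.1 hv w.1 w.2 ((adjB_iff M v w).2 a2) ((adjB_iff M ⟨x, hx⟩ w).2 a1)
        · exact hcon u.1 hu w.1 w.2 ((adjB_iff M u w).2 a1) ((adjB_iff M ⟨x, hx⟩ w).2 a2)
        · exact h1 u hu v hv huv w ⟨a1, a2⟩

theorem cnt_eq (M : List (List Bool)) (T : List ℕ) : cnt M T = (setOf M T).ncard := by
  classical
  unfold cnt
  have h1 : ((List.range M.length).filter fun i => decide (i ∈ T)).toFinset.card =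
      ((List.range M.length).filter fun i => decide (i ∈ T)).length :=
    List.toFinset_card_of_nodup (List.nodup_range.filter _)
  rw [← h1]
  have h2 : (((List.range M.length).filter fun i => decide (i ∈ T)).toFinset : Set ℕ) =
      Fin.val '' (setOf M T) := by
    ext i
    simp only [List.coe_toFinset, List.mem_filter, List.mem_range, decide_eq_true_eq,
      Set.mem_ofPred_eq, Set.mem_image, setOf]
    constructor
    · rintro ⟨a, b⟩
      exact ⟨⟨i, a⟩, b, rfl⟩
    · rintro ⟨x, hx, rfl⟩
      exact ⟨x.2, hx⟩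
  rw [← Set.ncard_coe_finset, h2, Set.ncard_image_of_injective _ Fin.val_injective]

theorem exists_list (M : List (List Bool)) (S : Set (Fin M.length)) :
    ∃ T : List ℕ, (∀ i ∈ T, i < M.length) ∧ setOf M T = S ∧
      sz T ≤ M.length * (4 * M.length + 2) + 1 := by
  classical
  refine ⟨(List.range M.length).filter (fun i => decide (∃ h : i < M.length,
      (⟨i, h⟩ : Fin M.length) ∈ S)), ?_, ?_, ?_⟩
  · intro i hi
    rw [List.mem_filter, List.mem_range] at hi
    exact hi.1
  · ext x
    simp only [setOf, List.mem_filter, List.mem_range, decide_eq_true_eq, Set.mem_ofPred_eq]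
    constructor
    · rintro ⟨_, _, h⟩
      exact h
    · intro h
      exact ⟨x.2, x.2, h⟩
  · exact (sz_filter_le _ _).trans (Poly.sz_range_le M.length M.length le_rfl)

theorem not_iff (M : List (List Bool)) :
    ¬ EqualOpenPackings (matGraph M) ↔
      ∃ w : List ℕ × List ℕ, sz w ≤ (Polynomial.C 8 * Polynomial.X * Polynomial.X +
        Polynomial.C 20 * Polynomial.X + Polynomial.C 20 : Polynomial ℕ).eval (sz M) ∧
        chk (M, w) = true := by
  constructor
  · intro h
    unfold EqualOpenPackings at h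
    push Not at h
    obtain ⟨S, T, hS, hT, hne⟩ := h
    obtain ⟨S', a1, a2, a3⟩ := exists_list M S
    obtain ⟨T', b1, b2, b3⟩ := exists_list M T
    refine ⟨(S', T'), ?_, ?_⟩
    · have h5 := length_lt_sz M
      simp only [sz_pair, Polynomial.eval_add, Polynomial.eval_mul, Polynomial.eval_C,
        Polynomial.eval_X]
      nlinarith
    · simp only [chk, Bool.and_eq_true, Bool.not_eq_true', decide_eq_false_iff_not]
      rw [isMaxOP_iff M S' a1, isMaxOP_iff M T' b1, cnt_eq, cnt_eq, a2, b2]
      exact ⟨⟨hS, hT⟩, hne⟩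
  · rintro ⟨⟨S', T'⟩, -, hc⟩ h
    simp only [chk, Bool.and_eq_true, Bool.not_eq_true', decide_eq_false_iff_not] at hc
    obtain ⟨⟨h1, h2⟩, h3⟩ := hc
    have hlt : ∀ T : List ℕ, isMaxOP M T = true → ∀ i ∈ T, i < M.length := by
      intro T hT i hi
      simp only [isMaxOP, Bool.and_eq_true, List.all_eq_true, decide_eq_true_eq] at hT
      exact hT.1.1 i hi
    rw [cnt_eq, cnt_eq] at h3
    exact h3 (h _ _ ((isMaxOP_iff M S' (hlt _ h1)).1 h1) ((isMaxOP_iff M T' (hlt _ h2)).1 h2))

theorem inCoNP : InCoNPP (fun M : List (List Bool) => EqualOpenPackings (matGraph M)) :=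
  inCoNPP_of chk_poly _ not_iff

end Pool.Agent.Q323.OpenPack
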