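import Pool.Agent.Q323.OpenPack.Comb
import Pool.Agent.Q323.Base.Box

/-!
# Maximal open packings: the reduction and its polynomial-time computability
-/

set_option autoImplicit false

namespace Pool.Agent.Q323.OpenPack

open Pool.Agent.NPC Pool.Agent.H622R2 Pool.Agent.H609R2 Pool.Agent.Q323.Box

/-- The number of variables. -/
def nv (φ : List C3) : ℕ := 3 * φ.length + 1

/-- Labels of the vertices. -/
def enc {n m : ℕ} : PV n m → LabN
  | .lit i b => (0, i.1, if b then 1 else 0)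
  | .z i => (1, i.1, 0)
  | .c j => (2, j.1, 0)
  | .QC => (3, 0, 0)
  | .Q i => (4, i.1, 0)
  | .QL i b => (5, i.1, if b then 1 else 0)
  | .R0 => (6, 0, 0)
  | .RZ i => (7, i.1, 0)

/-- The valid labels. -/
def valid (φ : List C3) (x : LabN) : Bool :=
  decide (x.1 = 0 ∧ x.2.1 < nv φ ∧ x.2.2 < 2 ∨ x.1 = 1 ∧ x.2.1 < nv φ ∧ x.2.2 = 0 ∨
    x.1 = 2 ∧ x.2.1 < φ.length + 1 ∧ x.2.2 = 0 ∨ x.1 = 3 ∧ x.2.1 = 0 ∧ x.2.2 = 0 ∨
    x.1 = 4 ∧ x.2.1 < nv φ ∧ x.2.2 = 0 ∨ x.1 = 5 ∧ x.2.1 < nv φ ∧ x.2.2 < 2 ∨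
    x.1 = 6 ∧ x.2.1 = 0 ∧ x.2.2 = 0 ∨ x.1 = 7 ∧ x.2.1 < nv φ ∧ x.2.2 = 0)

/-- Half of the adjacency test. -/
def adj (φ : List C3) (u v : LabN) : Bool :=
  decide (u.1 = 0 ∧ v.1 = 4 ∧ u.2.1 = v.2.1 ∨ u.1 = 0 ∧ v.1 = 5 ∧ u.2.1 = v.2.1 ∧ u.2.2 = v.2.2 ∨
    u.1 = 1 ∧ v.1 = 4 ∧ u.2.1 = v.2.1 ∨ u.1 = 1 ∧ v.1 = 7 ∧ u.2.1 = v.2.1 ∨
    u.1 = 2 ∧ v.1 = 3 ∨
    u.1 = 2 ∧ v.1 = 5 ∧ (u.2.1 = 0 ∨ (¬ u.2.1 = 0 ∧
      satL φ (u.2.1 - 1) v.2.1 (decide (v.2.2 = 1)) = true)) ∨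
    u.1 = 2 ∧ v.1 = 6 ∧ u.2.1 = 0)

/-- The reduction. -/
def red (φ : List C3) : List (List Bool) :=
  boxRed 8 (fun φ => 3 * φ.length + 2) valid adj φ

theorem satL_poly' {α : Type} [TEnc α] {f : α → List C3} {k i : α → ℕ} {a : α → Bool}
    (hf : Poly f) (hk : Poly k) (hi : Poly i) (ha : Poly a) :
    Poly (fun x => satL (f x) (k x) (i x) (a x)) := satL_poly hf hk hi ha

attribute [fun_prop] satL_poly'

theorem red_poly : Poly red := by
  refine boxRed_poly 8 (((UPoly.const 3).mul (UPoly.length Poly.id)).add (UPoly.const 2)) ?_ ?_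
  · unfold valid nv
    fun_prop
  · unfold adj
    fun_prop

theorem enc_injective {n m : ℕ} : Function.Injective (enc : PV n m → LabN) := by
  intro u v h
  cases u <;> cases v <;> simp only [enc, Prod.mk.injEq, Fin.val_inj, OfNat.ofNat_ne_zero,
    false_and, true_and, and_true, PV.lit.injEq, PV.z.injEq, PV.c.injEq, PV.Q.injEq, PV.QL.injEq,
    PV.RZ.injEq, zero_ne_one, one_ne_zero, OfNat.zero_ne_ofNat, OfNat.ofNat_ne_one,
    OfNat.one_ne_ofNat, Nat.reduceEqDiff, reduceCtorEq] at h ⊢ <;>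
    first
    | exact h
    | (obtain ⟨h1, h2⟩ := h
       refine ⟨h1, ?_⟩
       split_ifs at h2 <;> simp_all)

theorem inc_iff (φ : List C3) (u v : PV (nv φ) φ.length) :
    inc (satL φ) u v ↔ adj φ (enc u) (enc v) = true := by
  have hb : ∀ b : Bool, decide ((if b = true then 1 else 0 : ℕ) = 1) = b := by
    intro b; cases b <;> rfl
  have hb2 : ∀ b b' : Bool, ((if b = true then 1 else 0 : ℕ) = (if b' = true then 1 else 0)) ↔
      b = b' := by
    intro b b'; cases b <;> cases b' <;> simp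
  cases u <;> cases v <;> simp [inc, adj, enc, hb, hb2, Fin.val_inj]

theorem red_iso (φ : List C3) :
    Nonempty ((graph (satL φ) : SimpleGraph (PV (nv φ) φ.length)) ≃g matGraph (red φ)) := by
  refine boxRed_iso φ _ enc enc_injective ?_ ?_ ?_
  · intro v
    cases v with
    | lit i b =>
      have := i.2
      unfold nv at this
      cases b <;> simp [enc, valid, nv] <;> omega
    | z i =>
      have := i.2
      unfold nv at this
      simp [enc, valid, nv]; omega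
    | c j =>
      have := j.2
      simp [enc, valid, nv]; omega
    | QC => simp [enc, valid, nv]
    | Q i =>
      have := i.2
      unfold nv at this
      simp [enc, valid, nv]; omega
    | QL i b =>
      have := i.2
      unfold nv at this
      cases b <;> simp [enc, valid, nv] <;> omega
    | R0 => simp [enc, valid, nv]
    | RZ i =>
      have := i.2
      unfold nv at this
      simp [enc, valid, nv]; omega
  · rintro ⟨k, i, j⟩ h1 h2 h3 h4
    simp only [valid, decide_eq_true_eq] at h4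
    have h5 : j < 2 → (if decide (j = 1) = true then 1 else 0) = j := by
      intro hj
      by_cases h : j = 1
      · simp [h]
      · simp [h]; omega
    rcases h4 with ⟨rfl, h6, h7⟩ | ⟨rfl, h6, rfl⟩ | ⟨rfl, h6, rfl⟩ | ⟨rfl, rfl, rfl⟩ |
      ⟨rfl, h6, rfl⟩ | ⟨rfl, h6, h7⟩ | ⟨rfl, rfl, rfl⟩ | ⟨rfl, h6, rfl⟩
    · exact ⟨.lit ⟨i, h6⟩ (decide (j = 1)), by simp only [enc]; rw [h5 h7]⟩
    · exact ⟨.z ⟨i, h6⟩, rfl⟩
    · exact ⟨.c ⟨i, h6⟩, rfl⟩
    · exact ⟨.QC, rfl⟩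
    · exact ⟨.Q ⟨i, h6⟩, rfl⟩
    · exact ⟨.QL ⟨i, h6⟩ (decide (j = 1)), by simp only [enc]; rw [h5 h7]⟩
    · exact ⟨.R0, rfl⟩
    · exact ⟨.RZ ⟨i, h6⟩, rfl⟩
  · intro u v _
    change (inc (satL φ) u v ∨ inc (satL φ) v u) ↔ _
    rw [inc_iff, inc_iff]

theorem red_correct {φ : List C3} (h : Bounded3 φ) :
    SAT3 φ ↔ ¬ EqualOpenPackings (matGraph (red φ)) := by
  obtain ⟨e⟩ := red_iso φ
  constructor
  · intro hs h'
    obtain ⟨τ, hτ⟩ := (SAT3_iff h).1 hs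
    exact not_equal_of_sat (by omega) τ hτ (h'.of_iso e)
  · intro h'
    by_contra hun
    refine h' (EqualOpenPackings.of_iso e.symm (equal_of_unsat ?_))
    intro τ
    by_contra hcon
    push Not at hcon
    refine hun ((SAT3_iff h).2 ⟨τ, fun k hk => ?_⟩)
    obtain ⟨i, hi, h2⟩ := hcon k hk
    exact ⟨i, hi, by simpa using h2⟩

theorem hardI_not : HardI (fun M : List (List Bool) => ¬ EqualOpenPackings (matGraph M)) :=
  (hardPr_SAT3b.trans (Pr' := fun _ => True) red_poly (fun _ _ => trivial)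
    (fun _ h => red_correct h.2.1)).toHardI

end Pool.Agent.Q323.OpenPack
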